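import Pool.Agent.W_MP_72c16c_nt.Compute

namespace Pool.Agent.Results.MP_72c16c_nt.Counterexample

open Polynomial

/-- The height of an integer polynomial: the largest absolute value of a coefficient. -/
def height (f : ℤ[X]) : ℕ := f.support.sup fun i => (f.coeff i).natAbs

/-- The largest height of a divisor of `X ^ n - 1` in `ℤ[X]`. -/
noncomputable def maxHeight (n : ℕ) : ℕ := sSup {h | ∃ f : ℤ[X], f ∣ X ^ n - 1 ∧ height f = h}

/-- The product `Φ_p Φ_q Φ_{p^2 q} Φ_{p q^2}`. -/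
noncomputable def firstProd (p q : ℕ) : ℤ[X] :=
  cyclotomic p ℤ * cyclotomic q ℤ * cyclotomic (p ^ 2 * q) ℤ * cyclotomic (p * q ^ 2) ℤ

/-- The product `Φ_p Φ_q Φ_{p^2} Φ_{q^2}`. -/
noncomputable def secondProd (p q : ℕ) : ℤ[X] :=
  cyclotomic p ℤ * cyclotomic q ℤ * cyclotomic (p ^ 2) ℤ * cyclotomic (q ^ 2) ℤ

theorem natAbs_coeff_le_height (f : ℤ[X]) (k : ℕ) : (f.coeff k).natAbs ≤ height f := by
  by_cases h : f.coeff k = 0
  · rw [h]
    exact Nat.zero_le _
  · exact Finset.le_sup (f := fun i => (f.coeff i).natAbs) (mem_support_iff.mpr h)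

theorem height_le {f : ℤ[X]} {M : ℕ} (h : ∀ k, |f.coeff k| ≤ M) : height f ≤ M := by
  refine Finset.sup_le fun k _ => ?_
  have := h k
  rw [Int.abs_eq_natAbs] at this
  exact_mod_cast this

theorem finite_divisors {n : ℕ} (hn : 0 < n) : {f : ℤ[X] | f ∣ X ^ n - 1}.Finite := by
  have h1 : Finite (ℤ[X])ˣ := Finite.of_surjective (Units.map (C : ℤ →+* ℤ[X]).toMonoidHom) (by
    intro u
    obtain ⟨r, hr, h⟩ := Polynomial.isUnit_iff.mp u.isUnit
    exact ⟨hr.unit, Units.ext h⟩)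
  have h2 := Fintype.ofFinite (ℤ[X])ˣ
  have h3 := UniqueFactorizationMonoid.fintypeSubtypeDvd (X ^ n - 1 : ℤ[X])
    (X_pow_sub_C_ne_zero hn (1 : ℤ))
  have h4 : Finite {x : ℤ[X] // x ∣ X ^ n - 1} := @Finite.of_fintype _ h3
  exact Set.finite_coe_iff.mp h4

theorem height_le_maxHeight {n : ℕ} (hn : 0 < n) {f : ℤ[X]} (hf : f ∣ X ^ n - 1) :
    height f ≤ maxHeight n := by
  refine le_csSup ?_ ⟨f, hf, rfl⟩
  have h : {h | ∃ f : ℤ[X], f ∣ X ^ n - 1 ∧ height f = h} =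
      height '' {f : ℤ[X] | f ∣ X ^ n - 1} := rfl
  rw [h]
  exact ((finite_divisors hn).image height).bddAbove

theorem prod_dvd {p q : ℕ} (hp : p.Prime) (hq : q.Prime) (hpq : p < q) :
    firstProd p q * cyclotomic (p ^ 2 * q ^ 2) ℤ ∣ X ^ (p ^ 2 * q ^ 2) - 1 := by
  have h2 := hp.two_le
  have i1 : q < p ^ 2 * q := by
    have h3 : 1 < p ^ 2 := Nat.one_lt_pow (by norm_num) hp.one_lt
    have h4 := hq.pos
    nlinarith
  have i2 : p ^ 2 * q < p * q ^ 2 := by
    have : p * q * p < p * q * q := by gcongr; exact Nat.mul_pos hp.pos hq.pos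
    nlinarith
  have i3 : p * q ^ 2 < p ^ 2 * q ^ 2 := by
    have : 0 < q ^ 2 := pow_pos hq.pos 2
    nlinarith
  have h1 : firstProd p q * cyclotomic (p ^ 2 * q ^ 2) ℤ =
      ∏ i ∈ ({p, q, p ^ 2 * q, p * q ^ 2, p ^ 2 * q ^ 2} : Finset ℕ), cyclotomic i ℤ := by
    unfold firstProd
    rw [Finset.prod_insert, Finset.prod_insert, Finset.prod_insert, Finset.prod_insert,
      Finset.prod_singleton]
    · ring
    all_goals simp only [Finset.mem_insert, Finset.mem_singleton, not_or]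
    all_goals omega
  have h0 : 0 < p ^ 2 * q ^ 2 := Nat.mul_pos (pow_pos hp.pos 2) (pow_pos hq.pos 2)
  rw [h1, ← prod_cyclotomic_eq_X_pow_sub_one h0 ℤ]
  refine Finset.prod_dvd_prod_of_subset _ _ _ ?_
  intro i hi
  simp only [Finset.mem_insert, Finset.mem_singleton] at hi
  rw [Nat.mem_divisors]
  refine ⟨?_, h0.ne'⟩
  rcases hi with rfl | rfl | rfl | rfl | rfl
  · exact ⟨i * q ^ 2, by ring⟩
  · exact ⟨p ^ 2 * i, by ring⟩
  · exact ⟨q, by ring⟩
  · exact ⟨p, by ring⟩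
  · exact dvd_rfl

/-- The identity `B(p^2 q^2) = max (H(Φ_p Φ_q Φ_{p^2 q} Φ_{p q^2})) (H(Φ_p Φ_q Φ_{p^2} Φ_{q^2}))`
fails for `p = 19`, `q = 149`: the two heights are at most `801` and `361`, but
`Φ_p Φ_q Φ_{p^2 q} Φ_{p q^2} Φ_{p^2 q^2}` has height at least `835`. -/
theorem result :
    (firstProd 19 149 * cyclotomic (19 ^ 2 * 149 ^ 2) ℤ ∣ X ^ (19 ^ 2 * 149 ^ 2) - 1 ∧
      height (firstProd 19 149) ≤ 801 ∧ height (secondProd 19 149) ≤ 361 ∧
      835 ≤ height (firstProd 19 149 * cyclotomic (19 ^ 2 * 149 ^ 2) ℤ)) ∧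
    ¬ ∀ p q : ℕ, p.Prime → q.Prime → p < q →
      maxHeight (p ^ 2 * q ^ 2) = max (height (firstProd p q)) (height (secondProd p q)) := by
  have h1 : height (firstProd 19 149) ≤ 801 :=
    height_le Pool.Agent.W_MP_72c16c_nt.f1_coeff_le
  have h2 : height (secondProd 19 149) ≤ 361 := by
    refine height_le fun k => ?_
    have := Pool.Agent.W_MP_72c16c_nt.f2_coeff_le (p := 19) (q := 149) (by norm_num)
      (by norm_num) k
    refine this.trans ?_
    norm_num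
  have h3 : 835 ≤ height (firstProd 19 149 * cyclotomic (19 ^ 2 * 149 ^ 2) ℤ) := by
    have h := natAbs_coeff_le_height (firstProd 19 149 * cyclotomic (19 ^ 2 * 149 ^ 2) ℤ) 1456798
    have h' : (firstProd 19 149 * cyclotomic (19 ^ 2 * 149 ^ 2) ℤ).coeff 1456798 = -835 :=
      Pool.Agent.W_MP_72c16c_nt.f3_coeff
    rw [h'] at h
    exact h
  have h0 := prod_dvd (p := 19) (q := 149) (by norm_num) (by norm_num) (by norm_num)
  refine ⟨⟨h0, h1, h2, h3⟩, fun hall => ?_⟩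
  have h4 := hall 19 149 (by norm_num) (by norm_num) (by norm_num)
  have h5 := height_le_maxHeight (n := 19 ^ 2 * 149 ^ 2) (by norm_num) h0
  rw [h4] at h5
  have h6 : max (height (firstProd 19 149)) (height (secondProd 19 149)) ≤ 801 :=
    max_le h1 (h2.trans (by norm_num))
  omega

end Pool.Agent.Results.MP_72c16c_nt.Counterexample
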